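import Mathlib
import Pool.Agent.E8helper42.AZ.Stm2

/-!
# Formal solutions at zero and at infinity (S_ZERO, S_REG)
-/

set_option autoImplicit false

namespace Pool.Agent.E8helper81.AZ

open Polynomial Pool.Agent.E8helper42.AZ

/-- `D_c p = p' + c p` -/
noncomputable def Dc (c : ℂ) (p : ℂ[X]) : ℂ[X] := derivative p + C c * p

lemma Dc_zero (c : ℂ) : Dc c 0 = 0 := by unfold Dc; simp

lemma Dc_inj {c : ℂ} (hc : c ≠ 0) {p : ℂ[X]} (h : Dc c p = 0) : p = 0 := by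
  by_contra hp
  exact hc (poly_ode hp h).1

lemma Dc_surj {c : ℂ} (hc : c ≠ 0) : ∀ (N : ℕ) (q : ℂ[X]), q.natDegree < N → ∃ p, Dc c p = q := by
  intro N
  induction N with
  | zero => intro q hq; exact absurd hq (Nat.not_lt_zero _)
  | succ N ih =>
    intro q hq
    by_cases hq0 : q.natDegree = 0
    · refine ⟨C (1 / c) * q, ?_⟩
      rw [Polynomial.eq_C_of_natDegree_eq_zero hq0]
      unfold Dc
      rw [← C_mul, derivative_C, zero_add, ← C_mul]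
      congr 1
      field_simp
    · obtain ⟨p1, h1⟩ := ih (C (-1 / c) * derivative q) (by
        refine lt_of_le_of_lt (natDegree_C_mul_le _ _) ?_
        have := Polynomial.natDegree_derivative_lt hq0
        omega)
      refine ⟨C (1 / c) * q + p1, ?_⟩
      have e1 : C c * C (1 / c) = (1 : ℂ[X]) := by
        rw [← C_mul, mul_one_div_cancel hc, C_1]
      have e2 : C (-1 / c) = - C (1 / c) := by rw [← C_neg]; congr 1; ring
      rw [e2] at h1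
      unfold Dc at h1 ⊢
      rw [derivative_add, derivative_mul, derivative_C]
      linear_combination h1 + q * e1

/-- a right inverse of `D_c` -/
noncomputable def sol (c : ℂ) (q : ℂ[X]) : ℂ[X] :=
  if hc : c ≠ 0 then (Dc_surj hc (q.natDegree + 1) q (Nat.lt_succ_self _)).choose else 0

lemma Dc_sol {c : ℂ} (hc : c ≠ 0) (q : ℂ[X]) : Dc c (sol c q) = q := by
  unfold sol
  rw [dif_pos hc]
  exact (Dc_surj hc (q.natDegree + 1) q (Nat.lt_succ_self _)).choose_spec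

/-- recursion along the integers -/
noncomputable def bb (m : ℤ) (q0 : ℂ[X]) (Φ : ℤ → ℂ[X] → ℂ[X] → ℂ[X]) (k : ℤ) : ℂ[X] :=
  if h : k ≤ m then (if k = m then q0 else 0) else Φ k (bb m q0 Φ (k - 2)) (bb m q0 Φ (k - 4))
termination_by (k - m).toNat
decreasing_by
  all_goals omega

lemma bb_lt {m : ℤ} {q0 : ℂ[X]} {Φ : ℤ → ℂ[X] → ℂ[X] → ℂ[X]} {k : ℤ} (h : k < m) : bb m q0 Φ k = 0 := by
  rw [bb, dif_pos h.le, if_neg h.ne]

lemma bb_eq {m : ℤ} {q0 : ℂ[X]} {Φ : ℤ → ℂ[X] → ℂ[X] → ℂ[X]} : bb m q0 Φ m = q0 := by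
  rw [bb, dif_pos le_rfl, if_pos rfl]

lemma bb_gt {m : ℤ} {q0 : ℂ[X]} {Φ : ℤ → ℂ[X] → ℂ[X] → ℂ[X]} {k : ℤ} (h : m < k) :
    bb m q0 Φ k = Φ k (bb m q0 Φ (k - 2)) (bb m q0 Φ (k - 4)) := by
  rw [bb, dif_neg (not_le.2 h)]

/-- strong induction along the integers -/
lemma int_ind (m : ℤ) (P : ℤ → Prop) (h0 : ∀ k ≤ m, P k) (h1 : ∀ k, m < k → P (k - 2) → P (k - 4) → P k) :
    ∀ k, P k := by
  have h : ∀ (N : ℕ) (k : ℤ), k - m ≤ N → P k := by
    intro N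
    induction N with
    | zero => intro k hk; exact h0 k (by push_cast at hk; omega)
    | succ N ih =>
      intro k hk
      rcases le_or_gt k m with h | h
      · exact h0 k h
      · exact h1 k h (ih _ (by push_cast at hk; omega)) (ih _ (by push_cast at hk; omega))
  intro k
  exact h (k - m).toNat k (by omega)

lemma z_smul (d : Dat) (c : ℂ) (u : RR) : d.z * (c • u) = c • (d.z * u) := by
  ext1
  funext g
  rw [Dat.z, HahnSeries.coeff_single_mul, HahnSeries.coeff_smul, HahnSeries.coeff_smul, HahnSeries.coeff_single_mul,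
    one_mul, one_mul]

/-! ### at zero -/

lemma T0_eq (b : ℤ → ℂ[X]) (k : ℤ) : T0 b k = Dc (1 / 2 * (k : ℂ)) (b k) := rfl

/-- the coefficients of `Lop d0 t (el 0 m b hb)` -/
lemma coeff0 (t : ℂ) {m : ℤ} {b : ℤ → ℂ[X]} (hb : Bdd m b) (g : Gam) :
    (Lop d0 t (el 0 m b hb)).coeff g = if p1 g = 0 then
      T0 (T0 (T0 (T0 b))) (p2 g) - t • ((34 : ℂ) • T0 (T0 (T0 b)) (p2 g - 2) + (51 : ℂ) • T0 (T0 b) (p2 g - 2) +
        (27 : ℂ) • T0 b (p2 g - 2) + (5 : ℂ) • b (p2 g - 2)) +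
        t ^ 2 • (T0 (T0 b) (p2 g - 4) + (2 : ℂ) • T0 b (p2 g - 4) + b (p2 g - 4)) else 0 := by
  unfold Lop
  simp only [th0_el, mul_add, z_smul, z0_el]
  simp only [HahnSeries.coeff_add, HahnSeries.coeff_sub, HahnSeries.coeff_smul, el_coeff]
  by_cases h : p1 g = 0
  · simp only [h, if_true]
    have e : p2 g - 2 - 2 = p2 g - 4 := by ring
    rw [e]
  · simp only [h, if_false, smul_zero, add_zero, sub_zero]

/-- the right side of the recursion at zero -/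
noncomputable def rhs0 (t : ℂ) (k : ℤ) (p q : ℂ[X]) : ℂ[X] :=
  t • ((34 : ℂ) • Dc (1 / 2 * ((k - 2 : ℤ) : ℂ)) (Dc (1 / 2 * ((k - 2 : ℤ) : ℂ)) (Dc (1 / 2 * ((k - 2 : ℤ) : ℂ)) p)) +
    (51 : ℂ) • Dc (1 / 2 * ((k - 2 : ℤ) : ℂ)) (Dc (1 / 2 * ((k - 2 : ℤ) : ℂ)) p) +
    (27 : ℂ) • Dc (1 / 2 * ((k - 2 : ℤ) : ℂ)) p + (5 : ℂ) • p) -
    t ^ 2 • (Dc (1 / 2 * ((k - 4 : ℤ) : ℂ)) (Dc (1 / 2 * ((k - 4 : ℤ) : ℂ)) q) +
      (2 : ℂ) • Dc (1 / 2 * ((k - 4 : ℤ) : ℂ)) q + q)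

lemma rhs0_zero (t : ℂ) (k : ℤ) : rhs0 t k 0 0 = 0 := by
  unfold rhs0
  simp [Dc_zero]

lemma Lop0_zero (t : ℂ) {m : ℤ} {b : ℤ → ℂ[X]} (hb : Bdd m b) :
    Lop d0 t (el 0 m b hb) = 0 ↔ ∀ k : ℤ, Dc (1 / 2 * (k : ℂ)) (Dc (1 / 2 * (k : ℂ)) (Dc (1 / 2 * (k : ℂ))
      (Dc (1 / 2 * (k : ℂ)) (b k)))) = rhs0 t k (b (k - 2)) (b (k - 4)) := by
  constructor
  · intro h k
    have h1 := coeff0 t hb (mk 0 k)
    rw [h, p1_mk, if_pos rfl, p2_mk, HahnSeries.coeff_zero] at h1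
    simp only [T0_eq] at h1
    unfold rhs0
    linear_combination (exp := 1) -h1
  · intro h
    ext1
    funext g
    rw [coeff0 t hb g, HahnSeries.coeff_zero]
    split_ifs
    · have h1 := h (p2 g)
      simp only [T0_eq]
      unfold rhs0 at h1
      linear_combination (exp := 1) h1
    · rfl

lemma half_ne {k : ℤ} (hk : 0 < k) : (1 / 2 * (k : ℂ)) ≠ 0 := by
  have : (k : ℂ) ≠ 0 := by exact_mod_cast hk.ne'
  simp [this]

/-- the solution at zero -/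
noncomputable def b0 (t : ℂ) : ℤ → ℂ[X] := bb 0 (C (1 / 6) * X ^ 3) fun k p q =>
  sol (1 / 2 * (k : ℂ)) (sol (1 / 2 * (k : ℂ)) (sol (1 / 2 * (k : ℂ)) (sol (1 / 2 * (k : ℂ)) (rhs0 t k p q))))

theorem s_ZERO : S_ZERO := by
  intro t
  constructor
  · refine ⟨b0 t, fun k hk => bb_lt hk, bb_eq, ?_⟩
    rw [Lop0_zero]
    intro k
    rcases lt_trichotomy k 0 with hk | hk | hk
    · have e1 : b0 t k = 0 := bb_lt hk
      have e2 : b0 t (k - 2) = 0 := bb_lt (by omega)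
      have e3 : b0 t (k - 4) = 0 := bb_lt (by omega)
      rw [e1, e2, e3, rhs0_zero]
      simp only [Dc_zero]
    · subst hk
      have e1 : b0 t 0 = C (1 / 6) * X ^ 3 := bb_eq
      have e2 : b0 t (0 - 2) = 0 := bb_lt (by omega)
      have e3 : b0 t (0 - 4) = 0 := bb_lt (by omega)
      rw [e1, e2, e3, rhs0_zero]
      unfold Dc
      simp only [Int.cast_zero, mul_zero, map_zero, zero_mul, add_zero]
      simp
    · have e1 : b0 t k = sol (1 / 2 * (k : ℂ)) (sol (1 / 2 * (k : ℂ)) (sol (1 / 2 * (k : ℂ))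
          (sol (1 / 2 * (k : ℂ)) (rhs0 t k (b0 t (k - 2)) (b0 t (k - 4)))))) := bb_gt hk
      rw [e1, Dc_sol (half_ne hk), Dc_sol (half_ne hk), Dc_sol (half_ne hk), Dc_sol (half_ne hk)]
  · intro b hb hb0 h
    rw [Lop0_zero] at h
    have h2 : ∀ k, b k = 0 := by
      refine int_ind 0 _ ?_ ?_
      · intro k hk
        rcases hk.lt_or_eq with h | h
        · exact hb k h
        · rw [h]; exact hb0
      · intro k hk h3 h4
        have h5 := h k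
        rw [h3, h4, rhs0_zero] at h5
        exact Dc_inj (half_ne hk) (Dc_inj (half_ne hk) (Dc_inj (half_ne hk) (Dc_inj (half_ne hk) h5)))
    ext1
    funext g
    rw [el_coeff, h2]
    simp

/-! ### at infinity -/

lemma TI_eq (b : ℤ → ℂ[X]) (k : ℤ) : TI (-((0 : ℝ) : ℂ)) b k = Dc (-1 / 2 * (k : ℂ)) (b k) := by
  unfold TI Dc
  simp

/-- the coefficients of `Lop dI t (el 0 m b hb)` -/
lemma coeffI (t : ℂ) {m : ℤ} {b : ℤ → ℂ[X]} (hb : Bdd m b) (g : Gam) :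
    (Lop dI t (el 0 m b hb)).coeff g = if p1 g = 0 then
      Dc (-1 / 2 * (p2 g : ℂ)) (Dc (-1 / 2 * (p2 g : ℂ)) (Dc (-1 / 2 * (p2 g : ℂ)) (Dc (-1 / 2 * (p2 g : ℂ)) (b (p2 g))))) -
      t • ((34 : ℂ) • Dc (-1 / 2 * ((p2 g + 2 : ℤ) : ℂ)) (Dc (-1 / 2 * ((p2 g + 2 : ℤ) : ℂ))
          (Dc (-1 / 2 * ((p2 g + 2 : ℤ) : ℂ)) (b (p2 g + 2)))) +
        (51 : ℂ) • Dc (-1 / 2 * ((p2 g + 2 : ℤ) : ℂ)) (Dc (-1 / 2 * ((p2 g + 2 : ℤ) : ℂ)) (b (p2 g + 2))) +
        (27 : ℂ) • Dc (-1 / 2 * ((p2 g + 2 : ℤ) : ℂ)) (b (p2 g + 2)) + (5 : ℂ) • b (p2 g + 2)) +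
        t ^ 2 • (Dc (-1 / 2 * ((p2 g + 4 : ℤ) : ℂ)) (Dc (-1 / 2 * ((p2 g + 4 : ℤ) : ℂ)) (b (p2 g + 4))) +
          (2 : ℂ) • Dc (-1 / 2 * ((p2 g + 4 : ℤ) : ℂ)) (b (p2 g + 4)) + b (p2 g + 4)) else 0 := by
  unfold Lop
  simp only [thI_el, mul_add, z_smul, zI_el]
  simp only [HahnSeries.coeff_add, HahnSeries.coeff_sub, HahnSeries.coeff_smul, el_coeff]
  by_cases h : p1 g = 0
  · simp only [h, if_true, TI_eq]
    have e : p2 g + 2 + 2 = p2 g + 4 := by ring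
    rw [e]
  · simp only [h, if_false, smul_zero, add_zero, sub_zero]

/-- the right side of the recursion at infinity -/
noncomputable def rhsI (t : ℂ) (k : ℤ) (p q : ℂ[X]) : ℂ[X] :=
  t • ((34 : ℂ) • Dc (-1 / 2 * ((k - 2 : ℤ) : ℂ)) (Dc (-1 / 2 * ((k - 2 : ℤ) : ℂ)) (Dc (-1 / 2 * ((k - 2 : ℤ) : ℂ)) p)) +
    (51 : ℂ) • Dc (-1 / 2 * ((k - 2 : ℤ) : ℂ)) (Dc (-1 / 2 * ((k - 2 : ℤ) : ℂ)) p) +
    (27 : ℂ) • Dc (-1 / 2 * ((k - 2 : ℤ) : ℂ)) p + (5 : ℂ) • p) -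
    Dc (-1 / 2 * ((k - 4 : ℤ) : ℂ)) (Dc (-1 / 2 * ((k - 4 : ℤ) : ℂ)) (Dc (-1 / 2 * ((k - 4 : ℤ) : ℂ))
      (Dc (-1 / 2 * ((k - 4 : ℤ) : ℂ)) q)))

lemma rhsI_zero (t : ℂ) (k : ℤ) : rhsI t k 0 0 = 0 := by
  unfold rhsI
  simp [Dc_zero]

lemma Dc_sq (c : ℂ) (p : ℂ[X]) : Dc c (Dc c p) + (2 : ℂ) • Dc c p + p = Dc (1 + c) (Dc (1 + c) p) := by
  unfold Dc
  simp only [derivative_add, derivative_mul, derivative_C, C_add, C_1, derivative_one, smul_eq_C_mul]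
  have : (C (2 : ℂ)) = (2 : ℂ[X]) := rfl
  rw [this]
  ring

lemma coeffI' (t : ℂ) {m : ℤ} {b : ℤ → ℂ[X]} (hb : Bdd m b) (k : ℤ) :
    (Lop dI t (el 0 m b hb)).coeff (mk 0 (k - 4)) =
      t ^ 2 • Dc (1 + -1 / 2 * (k : ℂ)) (Dc (1 + -1 / 2 * (k : ℂ)) (b k)) - rhsI t k (b (k - 2)) (b (k - 4)) := by
  rw [coeffI, p1_mk, if_pos rfl, p2_mk]
  have e1 : k - 4 + 2 = k - 2 := by ring
  have e2 : k - 4 + 4 = k := by ring
  rw [e1, e2, ← Dc_sq]
  unfold rhsI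
  ring

lemma one_sub_ne {k : ℤ} (hk : 2 < k) : (1 + -1 / 2 * (k : ℂ)) ≠ 0 := by
  intro h
  have : (k : ℂ) = 2 := by linear_combination -2 * h
  have : k = 2 := by exact_mod_cast this
  omega

/-- the solution at infinity -/
noncomputable def bI (t : ℂ) (p0 : ℂ[X]) : ℤ → ℂ[X] := bb 2 p0 fun k p q =>
  sol (1 + -1 / 2 * (k : ℂ)) (sol (1 + -1 / 2 * (k : ℂ)) ((1 / t ^ 2) • rhsI t k p q))

theorem s_REG : S_REG := by
  intro t ht
  have ht2 : t ^ 2 ≠ 0 := pow_ne_zero 2 ht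
  constructor
  · intro p
    refine ⟨bI t p, fun k hk => bb_lt hk, bb_eq, ?_⟩
    intro g
    by_cases hp : p1 g = 0
    · obtain ⟨k, hk⟩ : ∃ k : ℤ, k - 4 = p2 g := ⟨p2 g + 4, by ring⟩
      have hg : g = mk 0 (k - 4) := gam_ext (by rw [hp, p1_mk]) (by rw [p2_mk, hk])
      rw [hg, coeffI']
      rcases lt_trichotomy k 2 with h | h | h
      · have e1 : bI t p k = 0 := bb_lt h
        have e2 : bI t p (k - 2) = 0 := bb_lt (by omega)
        have e3 : bI t p (k - 4) = 0 := bb_lt (by omega)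
        rw [e1, e2, e3, rhsI_zero, if_neg]
        · simp only [Dc_zero, smul_zero, sub_zero]
        · intro h5
          have := congrArg p2 h5
          rw [p2_mk, p2_mk] at this
          omega
      · subst h
        have e1 : bI t p 2 = p := bb_eq
        have e2 : bI t p (2 - 2) = 0 := bb_lt (by omega)
        have e3 : bI t p (2 - 4) = 0 := bb_lt (by omega)
        rw [e1, e2, e3, rhsI_zero, if_pos (by norm_num)]
        have e4 : (1 + -1 / 2 * ((2 : ℤ) : ℂ)) = 0 := by push_cast; ring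
        rw [e4]
        unfold Dc
        simp only [map_zero, zero_mul, add_zero, sub_zero, smul_eq_C_mul]
      · have e1 : bI t p k = sol (1 + -1 / 2 * (k : ℂ)) (sol (1 + -1 / 2 * (k : ℂ))
            ((1 / t ^ 2) • rhsI t k (bI t p (k - 2)) (bI t p (k - 4)))) := bb_gt h
        have e2 : t ^ 2 • Dc (1 + -1 / 2 * (k : ℂ)) (Dc (1 + -1 / 2 * (k : ℂ)) (bI t p k)) =
            rhsI t k (bI t p (k - 2)) (bI t p (k - 4)) := by
          rw [e1, Dc_sol (one_sub_ne h), Dc_sol (one_sub_ne h), smul_smul, mul_one_div_cancel ht2, one_smul]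
        rw [e2, sub_self, if_neg]
        intro h5
        have := congrArg p2 h5
        rw [p2_mk, p2_mk] at this
        omega
    · rw [coeffI, if_neg hp, if_neg]
      intro h
      apply hp
      rw [h, p1_mk]
  · intro b hb hb0 h
    have h2 : ∀ k, b k = 0 := by
      refine int_ind 2 _ ?_ ?_
      · intro k hk
        rcases hk.lt_or_eq with h | h
        · exact hb k h
        · rw [h]; exact hb0
      · intro k hk h3 h4
        have h5 := coeffI' t hb k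
        rw [h, h3, h4, rhsI_zero, HahnSeries.coeff_zero, sub_zero] at h5
        have h6 := (smul_eq_zero.1 h5.symm).resolve_left ht2
        exact Dc_inj (one_sub_ne hk) (Dc_inj (one_sub_ne hk) h6)
    ext1
    funext g
    rw [el_coeff, h2]
    simp

end Pool.Agent.E8helper81.AZ
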